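import Pool.Agent.H93.TR.RootMain

/-!
# Semiampleness on hyperkähler fourfolds with four exceptional divisors

Consider the compact hyperkähler manifolds of one deformation type (a connected component of the moduli
space of marked manifolds), and let the dimension be four (or suppose that good minimal models exist in
all smaller dimensions). Let `l` be a nonzero integral class with `q(l) = 0`. The exceptional classes are
the multiples of the stably prime exceptional classes (the classes of irreducible divisors of negative
square, and their parallel translates).

Suppose that there are at least four prime divisors `P` with `q(P) < 0` and `q(l, P) = 0` on some projective
`M₀` of the type on which `l` is nef. Then all nef line bundles with the class `l` on all `M` of the type,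
projective or not, are semiample. So if `L` is a nef line bundle with `q(L) = 0` on a projective
hyperkähler fourfold which is not semiample, at most three prime exceptional divisors are orthogonal
to `L`.

The same holds if the set of the exceptional classes of type `(1,1)` on some projective `M₀` which are
orthogonal to `l` is reducible (the union of two nonempty sets orthogonal to each other), if there are
three exceptional classes orthogonal to `l` (not necessarily of type `(1,1)` on some given `M`)
which span a negative definite space of dimension three, or two such classes `e₁`, `e₂` with
`q(e₁, e₂) = 0`, if the exceptional classes in the span of `l`, `e₁`, `e₂` are those in the span of `l`, `e₁`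
and those in the span of `l`, `e₂`.

Proof. As in `Pool.Agent.Results.MP_be00df_ag.Nonvanishing`, if the set of exceptional classes of type
`(1,1)` on a projective `M` orthogonal to `l` is nonempty, or reducible, then `κ(l) ≥ 0`, or `κ(l) ≥ 1`.

Suppose that `κ(l) = 0` on `M₀`. There is an effective divisor `D` with class a multiple of `l` which
contains all prime exceptional divisors `P` orthogonal to `l`. If three components `P₁`, `P₂`, `P₃` of `D`
(there are at least four) were linearly dependent modulo `l`, consider `τ D - X ≥ 0` with `τ` minimal, where `X`
is the real divisor `x₁ P₁ + x₂ P₂ + x₃ P₃` with class a multiple of `l`: the components of `D` where the
coefficient of `τ D - X` vanishes are orthogonal to the others, and `κ(l) ≥ 1` by the Hodge index theorem.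
So we have three exceptional classes which are linearly independent and negative definite modulo `l`. By
boundedness there are only finitely many lines spanned by exceptional classes in this three-dimensional
space modulo `l`. By the theorem of Sylvester and Gallai there is a plane containing exactly two of
these lines, and since the reflections preserve the exceptional classes, the two lines are orthogonal. On
a projective `M₁` with Néron-Severi space spanned by `l`, the two lines and one more class, the set of
exceptional classes orthogonal to `l` is reducible and `κ(l) ≥ 1`. By the theorems of Kawamata and Lai and
the abundance theorem in dimension `≤ 3`, the class `l` is semiample on `M₁`, and by Matsushita's theorem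
on all `M` on which it is nef.
-/

set_option autoImplicit false

universe u

namespace Pool.Agent.Results.MP_be00df_ag.FourExceptionalDivisors

open Pool.Agent.Q50.HK Pool.Agent.H93.TR

/-- **Semiampleness on fourfolds with four exceptional divisors.** The deformation type `T` has the known
properties `RootFacts`, and the dimension is at most four, or good minimal models exist in all smaller
dimensions. Let `l` be a class with `ManyExceptional l`; for example, suppose that there is a projective
`M₀` on which `l` is nef, `l ≠ 0`, `q(l) = 0`, and which contains at least four prime divisors `P` with
`q(P) < 0` and `q(l, P) = 0`. Then all nef line bundles with class `l` on all `M` of the type `T`,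
projective or not, are semiample. -/
theorem result {n : ℕ} (T : Divisors.{u} n) (hT : T.RootFacts)
    (hdim : T.dim ≤ 4 ∨ ∀ m < T.dim, T.good m) (l : V n) (hl : T.ManyExceptional l) :
    ∀ M, T.NefIsotropic M l → T.semiample M l :=
  fun _ hM => semiample_main hT hdim hl hM

end Pool.Agent.Results.MP_be00df_ag.FourExceptionalDivisors
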