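import Pool.Agent.H93.TR.Div

/-!
# Nonvanishing for nef isotropic classes orthogonal to exceptional classes

Consider the compact hyperkähler manifolds of one deformation type (a connected component of the moduli
space of marked manifolds). Let `l` be a nonzero integral class with `q(l) = 0`. The exceptional
classes are the multiples of the stably prime exceptional classes (the classes of irreducible divisors of
negative square, and their parallel translates).

* If `l` is nef on `M`, and there is an exceptional class `e` of type `(1,1)` on `M` with `q(l, e) = 0`, for
  example the class of a prime divisor of negative square, then the Iitaka dimension of the line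
  bundle with class `l` is `κ(l) ≥ 0`.
* If moreover `M` is projective and the set of these exceptional classes is reducible (the union of two
  nonempty sets orthogonal to each other), then `κ(l) ≥ 1`.

There is no assumption on the dimension.

Proof. By Verbitsky's theorem the monodromy group contains powers of the Eichler transvections along `l`, and
they map `± e` to `± e + c l`. By Markman's theorem these classes are stably effective, and for large `c`
they have positive product with the Kähler classes of the given `M`, so `e + c l` and `- e + c l` are
effective, and so is their sum `2 c l`. In the reducible case take `e₁`, `e₂` in the two parts. There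
are effective divisors `D₁`, `D₂` with classes multiples of `l`, where `D₁` contains a divisor with the
class (a multiple of) `e₁ + c l`, and `D₂` contains one with class `e₂ + c l`. If no multiples of `D₁` and
`D₂` are equal, we have `κ(l) ≥ 1`. Otherwise we may assume `D = D₁ = D₂`. Since `l` is nef, all prime
components `P` of `D` are orthogonal to `l`, so by the Hodge index theorem `P` is exceptional or a multiple
of `l`. Let `D'` be the part of `D` of the components in the first set, `D''` the rest. Then
`q(D', D'') = 0` and `q(D', D) = 0 = q(D'', D)`, so `q(D') = q(D'') = 0`, and by the Hodge index theorem
`D'` and `D''` are multiples of `l`. Both are nonzero, and they have no common components, so `κ(l) ≥ 1`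
again.
-/

set_option autoImplicit false

universe u

namespace Pool.Agent.Results.MP_be00df_ag.Nonvanishing

open Pool.Agent.Q50.HK Pool.Agent.H93.TR

/-- **Nonvanishing.** The deformation type `T` has the known properties `Facts`. Let `l ≠ 0`, `q(l) = 0`, be
the class of a nef line bundle on `M`. If there is an exceptional class `e` of type `(1,1)` on `M` with
`q(l, e) = 0`, then `κ(l) ≥ 0`. If `M` is projective, and the set of these exceptional classes `e` is the
union of two nonempty sets orthogonal to each other, then `κ(l) ≥ 1`. -/
theorem result {n : ℕ} (T : Divisors.{u} n) (hT : T.Facts) (M : T.Mk) (l : V n)
    (hl : T.NefIsotropic M l) :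
    ((T.Exc M l).Nonempty → T.EffectiveQ M l) ∧
    (T.Projective M → T.Reducible M l → T.Moving M l) :=
  ⟨fun ⟨_, he⟩ => nonvanishing hT hl he.1 he.2.1.2 he.2.2,
    fun hM hred => moving hT hM hl hred⟩

end Pool.Agent.Results.MP_be00df_ag.Nonvanishing
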