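import Pool.Agent.H93.TR.Main

/-!
# One Lagrangian fibration, and the second ray of the nef cone

Consider the compact hyperkähler manifolds, projective or not, of one deformation type (a connected
component of the moduli space of marked manifolds) with second Betti number `n ≥ 5`. The conjecture, that
all nef line bundles `L` with `q(L) = 0` on all manifolds of this type are semiample, is reduced to the
projective manifolds `M` with Picard number two which already carry a Lagrangian fibration: it holds if
and only if

* some manifold of the deformation type has a non-trivial semiample line bundle with `q = 0` (by
  Matsushita's theorem a Lagrangian fibration), and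
* for the projective `M` with Picard number two, whose nef cone is spanned by two isotropic classes `l`
  and `l'`: if `l'` is semiample, so is `l`.

In the second condition `l'` gives a Lagrangian fibration `f`, and, as `q(l, l') > 0`, `l` is ample on the
general fibre of `f`, so `M` is a family of abelian varieties polarised by the line bundle in question;
if also `l` is semiample, then `M` is finite over the product of the two bases. If the first condition
holds, then the second one is needed for finitely many such `M` only.

Idea: let `l` be an integral isotropic class and `l₀` the class of the fibration. There are an isotropic
class `m` and a class `a ⊥ m` such that the classes `l' = E ^ t l₀`, `E` the Eichler transvection of `m`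
and `a`, have products `q(l, l')` which tend to infinity while a fixed integral class `w ⊥ l` has a fixed
nonzero product with them. So the denominators of the integral classes in the plane of `l` and `l'` are
bounded, and these classes have square `≥ 0` or very negative square: by the boundedness of the MBM
classes there is no wall. Powers of `E` are monodromy operators. On a manifold with Néron-Severi group
in this plane `l` and `l'` are nef, and `l'` is semiample by Matsushita's theorem, since it is in the orbit
of `l₀`.
-/

set_option autoImplicit false

universe u

namespace Pool.Agent.Results.MP_be00df_ag.SecondRay

open Pool.Agent.Q50.HK Pool.Agent.H93.TR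

/-- **The second ray.** The deformation type `T`, with `b₂ = n ≥ 5`, has the known properties `Facts`,
its monodromy group has finite index, and there are integral isotropic classes (Meyer's theorem).

(1) All nef line bundles with `q = 0` on all manifolds `M` of the type `T` are semiample if and only if there
is a non-trivial one which is semiample, and for all `M` with Picard number two whose nef cone is
spanned by two isotropic classes `l`, `l'`: if `l'` is semiample, so is `l`.

(2) If there is a non-trivial semiample one on some `M₀`, then there are finitely many `M i` with Picard
number two whose nef cone is spanned by two isotropic classes `l i`, `l' i`, with `l' i` semiample, such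
that all nef line bundles with `q = 0` on all manifolds of the type `T` are semiample if and only if the
`l i` are. -/
theorem result {n : ℕ} (hn : 5 ≤ n) (T : Bundles.{u} n) (hT : T.Facts)
    (hmon : FiniteIndex T.toModuli T.mon) (hiso : ∃ l, IsInt l ∧ l ≠ 0 ∧ T.B l l = 0) :
    ((∀ M l, T.NefIsotropic M l → T.semiample M l) ↔
      (∃ M l, T.NefIsotropic M l ∧ T.semiample M l) ∧
      ∀ M l l', TwoRays T.toModuli M l l' → T.semiample M l' → T.semiample M l) ∧
    ∀ M₀ l₀, T.NefIsotropic M₀ l₀ → T.semiample M₀ l₀ →
      ∃ (m : ℕ) (M : Fin m → T.Mk) (l l' : Fin m → V n),
        (∀ i, TwoRays T.toModuli (M i) (l i) (l' i) ∧ T.semiample (M i) (l' i)) ∧
        ((∀ M l, T.NefIsotropic M l → T.semiample M l) ↔ ∀ i, T.semiample (M i) (l i)) :=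
  ⟨criterion hn hT hmon hiso, fun _ _ h0 hs => finite_list hn hT hmon h0 hs⟩

end Pool.Agent.Results.MP_be00df_ag.SecondRay
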