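import Pool.Agent.H93.TR.ParMain

/-!
# Manifolds with a Lagrangian fibration and two parabolic automorphisms

Consider the compact hyperkähler manifolds, projective or not, of one deformation type (a connected
component of the moduli space of marked manifolds) with second Betti number `n ≥ 5`. The conjecture, that
all nef line bundles `L` with `q(L) = 0` on all manifolds of this type are semiample, is reduced to the
projective manifolds `M` with Picard number three which have two parabolic automorphisms `g`, `g'` with
different limit classes `l`, `l'`, and a Lagrangian fibration `f` with class `l'`. So `f` is preserved by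
`g'`, the fibrations `f ∘ g^m` are infinitely many Lagrangian fibrations of `M`, and their classes
`(g^*)^m l'`, divided by `m²`, converge to a multiple of `l`. It is to be shown that this limit `l` of
semiample classes is semiample, that is, that the parabolic automorphism `g` preserves a Lagrangian
fibration, too.

Idea: by `Pool.Agent.H93.TR.exists_far` there is an isotropic class `l'` in the orbit of the class of the
given fibration, such that the integral classes in the plane of `l` and `l'` have square `≥ 0` or very
negative square. There are classes `e`, `a` orthogonal to `l` and `l'` with `q(e) > 0`, `q(e, a) = q(e)`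
and very negative `q(a)`. If an integral class `d = x l + y l' + z a` has `z ≠ 0`, then `|z| ≥ 1 / q(e)`,
so `z² q(a)` is very negative. Hence on a manifold `M` with Néron-Severi space spanned by `l`, `l'`, `a`
all wall classes `d` have `x y > 0`: no wall contains `l` or `l'` or separates them. So `l` and `l'` are both
nef on `M`, and by the Torelli theorem powers of the Eichler transvections of `l` and `a`, and of `l'` and
`a`, come from automorphisms of `M`.
-/

set_option autoImplicit false

universe u

namespace Pool.Agent.Results.MP_be00df_ag.TwoParabolicAutomorphisms

open Pool.Agent.Q50.HK Pool.Agent.H93.TR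

/-- **Two parabolic automorphisms.** The deformation type `T`, with `b₂ = n ≥ 5`, has the known properties
`Facts`, and there are integral isotropic classes (Meyer's theorem).

(1) All nef line bundles with `q = 0` on all manifolds `M` of the type `T` are semiample if and only if there
is a non-trivial one which is semiample, and for all projective `M` with Picard number three and all
parabolic automorphisms `g`, `g'` of `M` with different limit classes `l`, `l'`: if the classes
`(g^*)^m l'`, `m ≥ 0`, are semiample, so is `l`.

(2) If there is a non-trivial semiample one on some `M₀`, then there are finitely many projective `M i` with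
Picard number three, with parabolic automorphisms `g i`, `g' i` with different limit classes `l i`, `l' i`
and with all `(g i ^*)^m (l' i)` semiample, such that all nef line bundles with `q = 0` on all manifolds of the type `T` are
semiample if and only if the `l i` are. -/
theorem result {n : ℕ} (hn : 5 ≤ n) (T : Autos.{u} n) (hT : T.Facts)
    (hiso : ∃ l, IsInt l ∧ l ≠ 0 ∧ T.B l l = 0) :
    ((∀ M l, T.NefIsotropic M l → T.semiample M l) ↔
      (∃ M l, T.NefIsotropic M l ∧ T.semiample M l) ∧
      ∀ M g g' l l', T.TwoParabolics M g g' l l' → T.SemiampleOrbit M g l' → T.semiample M l) ∧
    ∀ M₀ l₀, T.NefIsotropic M₀ l₀ → T.semiample M₀ l₀ →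
      ∃ (m : ℕ) (M : Fin m → T.Mk) (g g' : ∀ i, T.Aut (M i)) (l l' : Fin m → V n),
        (∀ i, T.TwoParabolics (M i) (g i) (g' i) (l i) (l' i) ∧ T.SemiampleOrbit (M i) (g i) (l' i)) ∧
        ((∀ M l, T.NefIsotropic M l → T.semiample M l) ↔ ∀ i, T.semiample (M i) (l i)) :=
  ⟨criterion_par hn hT hiso, fun _ _ h0 hs => finite_list_par hn hT h0 hs⟩

end Pool.Agent.Results.MP_be00df_ag.TwoParabolicAutomorphisms
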